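import Pool.Agent.K6.H7.UE.Tr
import Pool.Agent.K6.H7.UG.Fin

set_option autoImplicit false

/-!
# The equivariant motivic monodromy conjecture: paths with disjoint blocks suffice

The motivic monodromy conjecture of Denef and Loeser (Bernstein-Sato form) for all polynomials over `k ⊂ ℂ`, for
the motivic zeta function over `X_s = {f = 0}` with the action of `μ̂`, follows from its refined form for the
polynomials

`F_{N,M,a} = x_0 x_1 + x_1 x_2 + ⋯ + x_{N - 1} x_N + a_∅ + ∑_{e ∈ M} a_e ∏_{i ∈ e} x_i`,

where `M` is a set of pairwise disjoint sets of one, two or three variables: a path, and in addition a sum of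
products of pairwise disjoint sets of at most three variables.

Refined form: `(1 - 𝕃⁻¹ T) Z_f(T)` has only the denominators `1 - 𝕃 ^ a T ^ b` such that `a / b` is a root of
all `c(s)` with `(s + 1) c(s)` in the Bernstein-Sato ideal of `f`.

Method. (a) The classes in the equivariant Grothendieck ring of the jets of `g = f + y z` are computed from
those of `f`; with the key lemma that the class of a constructible set which is stable under a diagonal action
of `𝔾_m`, for the action of `μ̂` through `μ_d ⊂ 𝔾_m`, does not depend on `d`. The equivariant Grothendieck rings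
over `{g = 0}` and `{f = 0}` are compared by base change along the section `y = z = 0`. Thus `Z_{f + y z}` and
`Z_{f + y z + y' z'}` determine `Z_f`. (b) By automorphisms of the polynomial ring and further planes `y z` the
polynomial `f` becomes a sum of square-free monomials of degree at most three. (c) Disconnecting the occurrences
of a variable: `h(a, a) + y z` is equivalent to `h(a, b) + y (a + b)` up to signs, so that every variable occurs
in one monomial and in a system of equations `a + b = 0`. (d) The bipartite graph of these equations and the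
variables is a union of paths; they are joined to a single path by planes `y z`, at the cost of further disjoint
products of two variables.
-/

namespace Pool.Agent.Results.MP_b48657_ag.EquivariantPaths

open MvPolynomial Pool.Agent.W428.MOT Pool.Agent.K6.H7.UE Pool.Agent.K6.H7.UG
open Pool.Agent.H628R4.TP (IsBFunction)
open Pool.Agent.Y229.MS (addyz itr)

section defs

variable {k : Type} [Field k] [Algebra k ℂ] {n : ℕ}

/-- The motivic zeta function `zetaE f = ∑_{m ≥ 1} [X_{m,1}] 𝕃 ^ (-m n) T ^ m` of Denef and Loeser, with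
coefficients in the localised Grothendieck ring of varieties over `X_s = {f = 0}` with good action of `μ̂`, has the
property that `(1 - 𝕃⁻¹ T) Z_f(T)` is in the subring generated over this ring by `T` and the
`1 / (1 - 𝕃 ^ a T ^ b)`, `(a, b) ∈ S`. -/
def Denominators (f : MvPolynomial (Fin n) k) (S : Set (ℤ × ℤ)) : Prop :=
  InRat (LuMu f) S
    ((1 - PowerSeries.C (((LuMu f)⁻¹ : (MKMu f)ˣ) : MKMu f) * PowerSeries.X) * zetaE f)

/-- The refined equivariant conjecture for `f`: finitely many pairs `(a, b)`, such that `a / b` is a root of all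
`c` with a functional equation of `f` for `(s + 1) c(s)`. -/
def Refined (f : MvPolynomial (Fin n) k) : Prop :=
  ∃ S : Finset (ℤ × ℤ), (∀ p ∈ S, 0 < p.2 ∧ ∀ c : Polynomial ℂ,
    IsBFunction (map (algebraMap k ℂ) f) ((Polynomial.X + 1) * c) →
      c.eval ((p.1 : ℂ) / p.2) = 0) ∧ Denominators f S

/-- The refined equivariant conjecture for `f`, one candidate pole at a time: if `s` is not a root of one such
`c`, then no pairs `(a, b)` with `a / b = s` are needed. -/
def RefinedPoles (f : MvPolynomial (Fin n) k) : Prop :=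
  ∀ (s : ℚ) (c : Polynomial ℂ), IsBFunction (map (algebraMap k ℂ) f) ((Polynomial.X + 1) * c) →
    c.eval (s : ℂ) ≠ 0 → Denominators f {p | 0 < p.2 ∧ (p.1 : ℚ) / p.2 ≠ s}

end defs

/-- `M` is a set of pairwise disjoint sets with one, two or three elements, and `a_e ≠ 0` for `e ∈ M` -/
def DisjointBlocks {k : Type} [Field k] {N : ℕ} (M : Finset (Finset (Fin (N + 1))))
    (a : Finset (Fin (N + 1)) → k) : Prop :=
  (∀ e ∈ M, 1 ≤ e.card ∧ e.card ≤ 3 ∧ a e ≠ 0) ∧
    (M : Set (Finset (Fin (N + 1)))).PairwiseDisjoint id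

/-- The polynomial `x_0 x_1 + x_1 x_2 + ⋯ + x_{N - 1} x_N + (a₀ + ∑_{e ∈ M} a_e ∏_{i ∈ e} x_i)`. -/
noncomputable def pathBlocks {k : Type} [Field k] (N : ℕ) (a₀ : k)
    (M : Finset (Finset (Fin (N + 1)))) (a : Finset (Fin (N + 1)) → k) :
    MvPolynomial (Fin (N + 1)) k :=
  ∑ i : Fin N, X i.castSucc * X i.succ + (C a₀ + ∑ e ∈ M, C (a e) * ∏ i ∈ e, X i)

/-- **Paths with disjoint blocks suffice for the equivariant conjecture.** Let `k` be a field, `k ⊂ ℂ`.
(1) The refined conjecture holds for all non-constant polynomials over `k` if and only if it holds for all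
`pathBlocks N a₀ M a` with `N ≥ 3` and `DisjointBlocks M a`. (2) The same for `RefinedPoles`. (3) The refined
conjecture for `f` implies that for a finite set `S` of pairs `(a, b)`, such that `a / b` is a root of all `b`
with a functional equation of `f`, the motivic zeta function of `f` is in the ring generated by `T` and the
`1 / (1 - 𝕃 ^ a T ^ b)`, `(a, b) ∈ S`. (4) For every `f` in `n` variables there are `m ≥ 2` and
`F = pathBlocks N a₀ M a`, `N + 1 = n + 2 m`, with `F ≅ f + ∑_{j ≤ m} y_j z_j` by an isomorphism of the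
polynomial rings; and if `f` is not constant, a functional equation of `f` with `(s + 1) c(s)` gives one of `F` with
`(s + 1) c(s + m)`. -/
theorem result (k : Type) [Field k] [Algebra k ℂ] :
    ((∀ (N : ℕ) (a₀ : k) (M : Finset (Finset (Fin (N + 1)))) (a : Finset (Fin (N + 1)) → k), 3 ≤ N →
        DisjointBlocks M a → Refined (pathBlocks N a₀ M a)) ↔
      ∀ (n : ℕ) (f : MvPolynomial (Fin n) k), (∀ c : k, f ≠ C c) → Refined f) ∧
    ((∀ (N : ℕ) (a₀ : k) (M : Finset (Finset (Fin (N + 1)))) (a : Finset (Fin (N + 1)) → k), 3 ≤ N →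
        DisjointBlocks M a → RefinedPoles (pathBlocks N a₀ M a)) ↔
      ∀ (n : ℕ) (f : MvPolynomial (Fin n) k), (∀ c : k, f ≠ C c) → RefinedPoles f) ∧
    (∀ (n : ℕ) (f : MvPolynomial (Fin n) k), (∀ c : k, f ≠ C c) → Refined f →
      ∃ S : Finset (ℤ × ℤ), (∀ p ∈ S, 0 < p.2 ∧ ∀ b : Polynomial ℂ,
        IsBFunction (map (algebraMap k ℂ) f) b → b.eval ((p.1 : ℂ) / p.2) = 0) ∧
        InRat (LuMu f) S (zetaE f)) ∧
    ∀ (n : ℕ) (f : MvPolynomial (Fin n) k),
      ∃ (N : ℕ) (a₀ : k) (M : Finset (Finset (Fin (N + 1)))) (a : Finset (Fin (N + 1)) → k) (m : ℕ),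
        2 ≤ m ∧ N + 1 = n + 2 * m ∧ DisjointBlocks M a ∧
        (∃ φ : MvPolynomial (Fin (N + 1)) k ≃ₐ[k] MvPolynomial (Fin (n + 2 * m)) k,
          φ (pathBlocks N a₀ M a) = itr f m) ∧
        ((∀ c : k, f ≠ C c) → ∀ c : Polynomial ℂ,
          IsBFunction (map (algebraMap k ℂ) f) ((Polynomial.X + 1) * c) →
            IsBFunction (map (algebraMap k ℂ) (pathBlocks N a₀ M a))
              ((Polynomial.X + 1) * c.comp (Polynomial.X + Polynomial.C (m : ℂ)))) := by
  have hdeg : ∀ {n : ℕ} {f : MvPolynomial (Fin n) k}, (∀ c : k, f ≠ C c) → f.totalDegree ≠ 0 :=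
    fun hf hd => hf _ (totalDegree_eq_zero_iff_eq_C.1 hd)
  refine ⟨transfer (k := k) RE (fun h e φ => h.iso e φ) (fun hf h1 h2 => RE.step hf h1 h2),
    transfer (k := k) PE (fun h e φ => h.iso e φ) (fun hf h1 h2 => PE.step hf h1 h2),
    fun n f hf h => RE.full (hdeg hf) h, fun n f => ?_⟩
  obtain ⟨N, a₀, M, a, j, hj, hM, hr⟩ := exists_nf f
  obtain ⟨φ, hφ⟩ := exists_iso hr
  refine ⟨N, a₀, M, a, j, hj, hr.card, hM, ⟨φ, hφ⟩, fun hf c hc => ?_⟩
  have key : ∀ i : ℕ, IsBFunction (map (algebraMap k ℂ) (itr f i))
      ((Polynomial.X + 1) * c.comp (Polynomial.X + Polynomial.C (i : ℂ))) := by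
    intro i
    induction i with
    | zero =>
      rw [Nat.cast_zero, map_zero, add_zero, Polynomial.comp_X]
      exact hc
    | succ i ih =>
      have h1 := bf_addyz (itr_deg (hdeg hf) i) ih
      rw [Polynomial.comp_assoc] at h1
      have e : (Polynomial.X + Polynomial.C ((i : ℕ) : ℂ)).comp (Polynomial.X + 1) =
          (Polynomial.X + Polynomial.C (((i + 1 : ℕ) : ℕ) : ℂ) : Polynomial ℂ) := by
        rw [Polynomial.add_comp, Polynomial.X_comp, Polynomial.C_comp]
        push_cast
        rw [map_add, map_one]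
        ring
      rw [e] at h1
      exact h1
  have h2 := key j
  rw [← hφ] at h2
  exact bf_iso φ h2

end Pool.Agent.Results.MP_b48657_ag.EquivariantPaths
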