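import Pool.Agent.K6.H7.UF.Res

set_option autoImplicit false

/-!
# The equivariant motivic monodromy conjecture for stably generic polynomials

Let `f` be a polynomial in `x_1, …, x_n` over a field `k ⊂ ℂ` such that, for some `κ ≥ 0`,
`f(x) + y_1 z_1 + ⋯ + y_κ z_κ` becomes, by an automorphism of the polynomial ring `k[x, y, z]`, a polynomial
`G = ∑_j c_j X ^ (v j) + h` with generic coefficients `c_j` (for instance of the vertices of its Newton
polyhedron) and an ARBITRARY further part `h`. Then the conjecture of Denef and Loeser holds for `f` in its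
original form: for the motivic zeta function over `X_s = {f = 0}` with the action of `μ̂`, and with
roots of the Bernstein-Sato polynomial of `f`; under a condition on the facets of the Newton polyhedron of `G`:
for every candidate pole either some facet with this candidate pole contains a simplex which is not `B1`, or all
facets with this candidate pole are simplices or `B1` in a common direction. In particular all polyhedra whose
facets are simplices are allowed.

Main case: compositions `f(x) = Φ(x, p_1(x), …, p_κ(x))` where `G = Φ(x, z) + ∑_i y_i (γ_i z_i - γ_i p_i(x))` is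
as above. For example
`f = (c_1 x_2 ^ 2 + c_2 x_1 ^ 3 + q_1) ^ 2 + c_3 x_1 ^ 5 x_2 + c_4 x_1 ^ 7 + c_5 x_2 ^ 5 + q_2` for generic `c_j` and
all polynomials `q_1`, `q_2` such that the exponents of `z ^ 2`, `x_1 ^ 5 x_2`, `y z`, `y x_2 ^ 2`, `y x_1 ^ 3`,
`x_1 ^ 7`, `x_2 ^ 5` generate a polyhedron which contains those of `y q_1`, `q_2`. The polynomials `f` are in
general degenerate with respect to their Newton polyhedra in all coordinates, and their singularities need not
be isolated. `κ = 0` is the starting file `SimplicialOrB1Facets` (there with a weaker condition on the facets).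
The starting file `StablySparse` of MP_b91a16_ag, and our file `StablySparseEquivariant`, treat polynomials `G`
with affinely independent exponents and arbitrary coefficients, without the part `h`.

Method.
(a) `Z_f` is determined by the restrictions of `Z_{f + y z}` and `Z_{f + y z + y' z'}` to `{f = 0}`, in the
equivariant Grothendieck rings (see `StablySparseEquivariant`), so one has to treat `G` and `G + y z`.
(b) The theorem for generic coefficients is refined: `(1 - 𝕃⁻¹ T) Z_G(T)` has only the denominators
`1 - 𝕃 ^ a T ^ b` such that `a / b` is a root of every `c(s)` with `(s + 1) c(s)` in the Bernstein-Sato ideal of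
`G`. For `a / b = -1` this uses the double root of the generic Bernstein-Sato polynomial.
(c) The rays of the normal fan of `G + y z` which belong to candidate poles are the `(a, N_a, 0)` and
`(a, 0, N_a)` for the rays `a` of the fan of `G`; their levels are `|a| / N_a + 1`. The facets of `G + y z`
never contain a simplex which is not `B1`, so the second alternative is shown to be inherited from `G`, and for
the first one the root is obtained from `G`: a functional equation of `f` with `(s + 1) c(s)` gives one of
`G` with `(s + 1) c(s + κ)` and one of `G + y z` with `(s + 1) c(s + κ + 1)`.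
-/

namespace Pool.Agent.Results.MP_b48657_ag.StablyGeneric

open MvPolynomial Pool.Agent.W428.MOT Pool.Agent.TH216.HD
open Pool.Agent.Y229.MS (stabK)

section conditions

variable {R : Type} [CommRing R] {r m : ℕ}

/-- The facets with candidate pole `-σ` are simplices (`Simp`) or B1 in a common direction `i` (`B1Dir`). -/
def Common (v : Fin r → Fin m → ℕ) (h : MvPolynomial (Fin m) R) (σ : ℚ) : Prop :=
  ∃ i, ∀ a : Fin m → ℕ, IsRay v a → 0 < ordA v a → lev v a = σ → Simp v h a ∨ B1Dir v h i a

/-- The condition on the Newton polyhedron of `∑_j c_j X ^ (v j) + h`: for every ray `a` of the normal fan with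
`N_a = ordA v a = min_j ⟨a, v j⟩ > 0`, of level `lev v a = |a| / N_a` (the candidate pole is `-|a| / N_a`),
* `lev v a = lev v a'` for some `a'` with `N_{a'} > 0` whose face contains a simplex which is not B1 (`NonB1`), or
* all facets of the same level are simplices or B1 in a common direction. -/
def Facets (v : Fin r → Fin m → ℕ) (h : MvPolynomial (Fin m) R) : Prop :=
  ∀ a : Fin m → ℕ, IsRay v a → 0 < ordA v a →
    (∃ a' : Fin m → ℕ, 0 < ordA v a' ∧ NonB1 v False a' ∧ lev v a = lev v a') ∨
    Common v h (lev v a)

end conditions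

/-- The equivariant motivic monodromy conjecture for `f` with the finite set `S` of pairs `(a, b)` of
integers: `b > 0` and `a / b` is a root of every polynomial `b` with `b(s) f ^ s = P(s) f ^ (s + 1)`, `P(s)` a
differential operator in the Weyl algebra, polynomial in `s` (`IsBFunction`), in particular of the
Bernstein-Sato polynomial of `f`; and the motivic zeta function `zetaE f = ∑_{m ≥ 1} [X_{m,1}] 𝕃 ^ (-m n) T ^ m`
with coefficients in the localised Grothendieck ring of varieties over `X_s = {f = 0}` with good action of `μ̂`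
is in the subring generated over this ring by `T` and the `1 / (1 - 𝕃 ^ a T ^ b)`, `(a, b) ∈ S`. -/
def EquivariantMC {k : Type} [Field k] [Algebra k ℂ] {n : ℕ} (f : MvPolynomial (Fin n) k)
    (S : Finset (ℤ × ℤ)) : Prop :=
  (∀ p ∈ S, 0 < p.2 ∧ ∀ b : Polynomial ℂ,
    Pool.Agent.H628R4.TP.IsBFunction (map (algebraMap k ℂ) f) b →
      b.eval ((p.1 : ℂ) / p.2) = 0) ∧
  InRat (LuMu f) S (zetaE f)

/-- The polynomial `Φ(x, z) + ∑_{i ≤ κ} y_i (γ_i z_i - p_i(x))` in the variables `x, y, z`. -/
noncomputable def graphPoly {k : Type} [Field k] {n κ : ℕ} (γ : Fin κ → k)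
    (p : Fin κ → MvPolynomial (Fin n) k) (Φ : MvPolynomial (Fin (n + κ)) k) :
    MvPolynomial (Fin (n + (κ + κ))) k :=
  rename (Fin.addCases (Fin.castAdd (κ + κ)) fun i => Fin.natAdd n (Fin.natAdd κ i)) Φ +
    ∑ i : Fin κ, X (Fin.natAdd n (Fin.castAdd κ i)) *
      (C (γ i) * X (Fin.natAdd n (Fin.natAdd κ i)) - rename (Fin.castAdd (κ + κ)) (p i))

/-- **The equivariant motivic monodromy conjecture (Bernstein-Sato form) for stably generic
polynomials.**

`poly v c h` is the polynomial `∑_j c_j X ^ (v j) + h` in `n + 2 κ` variables, where the `v j ≠ 0` are different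
exponents, the coefficients `c_j` are in the field `k ⊂ ℂ`, and `h` is a polynomial over a subfield `F ⊂ k`
whose exponents are in the Newton polyhedron `conv {v j} + ℝ_{≥ 0} ^ (n + 2 κ)` (`InPoly`). Assume `Facets v h`.
Then there is a nonzero polynomial `g` over `F` such that for all `k` and `c` with `g(c) ≠ 0`:

First part. Let `f` be a non-constant polynomial in `n` variables over `k` and let `φ` be an automorphism of the
polynomial ring with `φ(f + ∑_i y_i z_i) = poly v c h` (`stabK f κ = f + ∑_i y_i z_i`). Then `EquivariantMC f S`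
for a finite set `S` of pairs `(a, b)` (`a < 0` by the theorem of Kashiwara).

Second part (compositions). Let `Φ(x, z) + ∑_i y_i (γ_i z_i - p_i(x)) = poly v c h`, `γ_i ≠ 0`, and let
`f(x) = Φ(x, p_1(x) / γ_1, …, p_κ(x) / γ_κ)` be non-constant. Then `EquivariantMC f S` for a finite set `S` of
pairs `(a, b)` with `a < 0 < b`. -/
theorem result (F : Type) [Field F] [Algebra F ℂ] {n κ r : ℕ} (hr : 0 < r)
    (v : Fin r → Fin (n + (κ + κ)) → ℕ) (hv : Function.Injective v) (hv0 : ∀ j, v j ≠ 0)
    (h : MvPolynomial (Fin (n + (κ + κ))) F) (hh : ∀ w ∈ h.support, InPoly v w)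
    (hL : Facets v h) :
    ∃ g : MvPolynomial (Fin r) F, g ≠ 0 ∧
      ∀ (k : Type) [Field k] [Algebra F k] [Algebra k ℂ] [IsScalarTower F k ℂ] (c : Fin r → k),
      aeval c g ≠ 0 →
      (∀ f : MvPolynomial (Fin n) k, f.totalDegree ≠ 0 →
        ∀ φ : MvPolynomial (Fin (n + (κ + κ))) k ≃ₐ[k] MvPolynomial (Fin (n + (κ + κ))) k,
        φ (stabK f κ) = poly v c h → ∃ S : Finset (ℤ × ℤ), EquivariantMC f S) ∧
      ∀ γ : Fin κ → k, (∀ i, γ i ≠ 0) → ∀ (p : Fin κ → MvPolynomial (Fin n) k)
        (Φ : MvPolynomial (Fin (n + κ)) k), graphPoly γ p Φ = poly v c h →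
        ∀ f : MvPolynomial (Fin n) k, f = aeval (Fin.append X fun i => C (γ i)⁻¹ * p i) Φ →
        f.totalDegree ≠ 0 →
        ∃ S : Finset (ℤ × ℤ), (∀ p ∈ S, p.1 < 0) ∧ EquivariantMC f S := by
  obtain ⟨g, hg, H⟩ := Pool.Agent.K6.H7.UF.res hr v hv hv0 h hh
    (Pool.Agent.K6.H7.UF.hypC_of hL)
  refine ⟨g, hg, fun k _ _ _ _ c hc => ⟨fun f hf φ hφ => ?_, fun γ hγ p Φ hG f hff hf => ?_⟩⟩
  · obtain ⟨S, hS, hz⟩ := (H k c hc).1 f hf φ hφ
    exact ⟨S, hS, hz⟩
  · obtain ⟨S, hS0, hS, hz⟩ := (H k c hc).2 γ hγ p Φ hG f hff hf
    exact ⟨S, hS0, hS, hz⟩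

end Pool.Agent.Results.MP_b48657_ag.StablyGeneric
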