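import Pool.Agent.K6.H7.UO.Fin

set_option autoImplicit false

/-!
# The equivariant motivic monodromy conjecture for stably nondegenerate polynomials

Let `f` be a polynomial in `x_1, …, x_n` over a field `k ⊂ ℂ` such that, for some `κ ≥ 0`,
`f(x) + y_1 z_1 + ⋯ + y_κ z_κ` becomes, by an automorphism of the polynomial ring `k[x, y, z]`, a polynomial `G`
which is nondegenerate for the faces (compact or not) of its Newton polyhedron. No coefficient has to be
generic. Then the motivic zeta function `Z_f(T)` of Denef and Loeser, over `X_s = {f = 0}` and with the action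
of `μ̂`, has only the denominators `1 - 𝕃 ^ a T ^ b` for which `a / b` is a root of the Bernstein-Sato polynomial
of `f` up to an integer; by the theorem of Malgrange and Kashiwara `exp(2 π i a / b)` is then an eigenvalue
of the local monodromy of `f` at a point of `X_s`. The condition on the facets of the Newton polyhedron of
`G` is: every candidate pole is an integer, or agrees modulo integers with the candidate pole of a facet which
contains a simplex which is not `B1`, or all facets with this candidate pole are simplices or `B1` in a common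
direction (only the vertices count here). In particular all simplicial polyhedra are allowed.

Main case: compositions `f(x) = Φ(x, p_1(x) / γ_1, …, p_κ(x) / γ_κ)` where the system
`(Φ(x, z), γ_1 z_1 - p_1(x), …, γ_κ z_κ - p_κ(x))` is nondegenerate (Khovanskii), which is the nondegeneracy of
`G = Φ(x, z) + ∑_i y_i (γ_i z_i - p_i(x))`; in other words, `𝔸 ^ n` is re-embedded in `𝔸 ^ (n + κ)` as a
graph and `f` is the restriction of `Φ`. Such `f` are in general degenerate in all coordinates, and their
singularities need not be isolated. For example (not formalised)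
`f = (x_2 ^ 2 - x_1 ^ 3) ^ 2 + x_1 ^ 5 x_2 + x_1 ^ 7 + x_3 ^ 5`, with
`G = z ^ 2 + x_1 ^ 5 x_2 + x_1 ^ 7 + x_3 ^ 5 + y (z - x_2 ^ 2 + x_1 ^ 3)`, all of whose facets with
`N_a > 0` are simplices; the exponents of `G` are not affinely independent.

`κ = 0` is contained in the starting file `NondegenerateVertices` (where the common direction may depend on
the vertex). The starting file `StablyNondegenerateGerms` of MP_aa7fc1_ag treats the local topological zeta
functions of stably nondegenerate germs. Our file `StablyGeneric` has generic coefficients, exact roots of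
`b_f`, and further terms over a subfield; `StablySparseEquivariant` has affinely independent exponents.

Method. `Z_f` is determined by the restrictions of `Z_{f + y z}` and `Z_{f + y z + y' z'}` to `{f = 0}` in the
equivariant Grothendieck rings (`StablySparseEquivariant`), so `G` and `G + y z` have to be treated, each with
the factor `1 - 𝕃⁻¹ T` of the strict transform removed. `G + y z` is again nondegenerate (the derivative in
`y` has no zero in the torus on the faces which contain `y z`), its vertices are those of `G` and `y z`, and the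
rays of its fan with a candidate pole are the `(a, N_a, 0)`, `(a, 0, N_a)` for the rays `a` of `G`, with
levels `|a| / N_a + 1`. The facets of `G + y z` never contain a simplex which is not `B1`, so the second
alternative is used for `G` only, while the third one is inherited from `G`; the relations between the terms of
`G + y z` come from its own deformation to general coefficients. The functional equation of `f` with
`(s + 1) c(s)` gives one of `G` with `(s + 1) c(s + κ)` and one of `G + y z` with `(s + 1) c(s + κ + 1)`.
-/

namespace Pool.Agent.Results.MP_b48657_ag.StablyNondegenerate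

open MvPolynomial Pool.Agent.W428.MOT Pool.Agent.TH216.HD Pool.Agent.TH216.HDNL
open Pool.Agent.W425.ND (spa)
open Pool.Agent.Y228.GN (NondegP GlobW)
open Pool.Agent.Y229.MS (stabK)

section conditions

variable {r m : ℕ}

/-- The facets with candidate pole `-σ` are simplices (`SimpVL`) or B1 in a common direction `i`
(`B1VL`), with respect to the exponents `v j`, `j ∈ V`. -/
def Common (v : Fin r → Fin m → ℕ) (V : Finset (Fin r)) (σ : ℚ) : Prop :=
  ∃ i, ∀ a : Fin m → ℕ, IsRay v a → 0 < ordA v a → lev v a = σ → SimpVL v V a ∨ B1VL v V i a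

/-- The condition on the Newton polyhedron of `∑_j c_j X ^ (v j)`: for every ray `a` of the normal fan with
`N_a = ordA v a = min_j ⟨a, v j⟩ > 0`, of level `lev v a = |a| / N_a` (the candidate pole is `-|a| / N_a`),
* `N_a` divides `|a|`, or
* `lev v a - lev v a' ∈ ℤ` for some `a'` with `N_{a'} > 0` whose face contains a simplex which is not B1
  (`NonB1 v True a'`, see the starting file `NondegenerateVertices`), or
* all facets of the same level are simplices or B1 in a common direction. -/
def Facets (v : Fin r → Fin m → ℕ) (V : Finset (Fin r)) : Prop :=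
  ∀ a : Fin m → ℕ, IsRay v a → 0 < ordA v a → ordA v a ∣ ∑ i, a i ∨
    (∃ a' : Fin m → ℕ, 0 < ordA v a' ∧ NonB1 v True a' ∧ ∃ z : ℤ, lev v a = lev v a' + z) ∨
    Common v V (lev v a)

end conditions

/-- The equivariant motivic monodromy conjecture for `f`, modulo integers, with the finite set `S` of pairs
`(a, b)` of integers: `b > 0`, and for every polynomial `B` with `B(s) f ^ s = P(s) f ^ (s + 1)`, `P(s)` a
differential operator in the Weyl algebra, polynomial in `s` (`IsBFunction`), in particular for the
Bernstein-Sato polynomial of `f`, there is an integer `i` with `B(a / b - i) = 0`; and the motivic zeta function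
`zetaE f = ∑_{m ≥ 1} [X_{m,1}] 𝕃 ^ (-m n) T ^ m` with coefficients in the localised Grothendieck ring of varieties
over `X_s = {f = 0}` with good action of `μ̂` is in the subring generated over this ring by `T` and the
`1 / (1 - 𝕃 ^ a T ^ b)`, `(a, b) ∈ S`. -/
def EquivariantMCMod {k : Type} [Field k] [Algebra k ℂ] {n : ℕ} (f : MvPolynomial (Fin n) k)
    (S : Finset (ℤ × ℤ)) : Prop :=
  (∀ p ∈ S, 0 < p.2 ∧ ∀ B : Polynomial ℂ,
    Pool.Agent.H628R4.TP.IsBFunction (map (algebraMap k ℂ) f) B →
      ∃ i : ℤ, B.eval ((p.1 : ℂ) / p.2 - i) = 0) ∧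
  InRat (LuMu f) S (zetaE f)

/-- The polynomial `Φ(x, z) + ∑_{i ≤ κ} y_i (γ_i z_i - p_i(x))` in the variables `x, y, z`. -/
noncomputable def graphPoly {k : Type} [Field k] {n κ : ℕ} (γ : Fin κ → k)
    (p : Fin κ → MvPolynomial (Fin n) k) (Φ : MvPolynomial (Fin (n + κ)) k) :
    MvPolynomial (Fin (n + (κ + κ))) k :=
  rename (Fin.addCases (Fin.castAdd (κ + κ)) fun i => Fin.natAdd n (Fin.natAdd κ i)) Φ +
    ∑ i : Fin κ, X (Fin.natAdd n (Fin.castAdd κ i)) *
      (C (γ i) * X (Fin.natAdd n (Fin.natAdd κ i)) - rename (Fin.castAdd (κ + κ)) (p i))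

/-- **The equivariant motivic monodromy conjecture modulo integers for stably nondegenerate
polynomials.**

`spa v c` is the polynomial `G = ∑_j c_j X ^ (v j)` in `n + 2 κ` variables, where the `v j ≠ 0` are different
exponents and the coefficients `c_j ≠ 0` are in the field `k ⊂ ℂ`. `NondegP v c`: for every `w` with nonnegative
coordinates the face polynomial of `G` (the sum of the terms on which `⟨w, v j⟩` is minimal) and its derivatives
`X_i ∂_i` have no common zero in the torus. `V` is a set of exponents such that all the exponents are in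
`conv {v j, j ∈ V} + ℝ_{≥ 0} ^ (n + 2 κ)` (`Spans v V`), for instance the set of the vertices. `GlobW v V`: for
every coordinate subspace `{X_i = 0, i ∈ J}`, except the origin, on which `G` vanishes, if a `v j`, `j ∈ V`, has a
coordinate `1` in `J`, then no `v l`, `l ∉ V`, has the same coordinates in `J` as `v j` (no condition if all
exponents are in `V`). Assume `Facets v V`.

First part. Let `f` be a non-constant polynomial in `n` variables over `k` and let `φ` be an automorphism of the
polynomial ring with `φ(f + ∑_i y_i z_i) = G` (`stabK f κ = f + ∑_i y_i z_i`). Then `EquivariantMCMod f S` for a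
finite set `S` of pairs `(a, b)`.

Second part (compositions). Let `Φ(x, z) + ∑_i y_i (γ_i z_i - p_i(x)) = G`, `γ_i ≠ 0`, and let
`f(x) = Φ(x, p_1(x) / γ_1, …, p_κ(x) / γ_κ)` be non-constant. Then `EquivariantMCMod f S` for a finite set `S`
of pairs `(a, b)` with `a < 0 < b`. -/
theorem result (k : Type) [Field k] [Algebra k ℂ] {n κ r : ℕ} (hr : 0 < r)
    (v : Fin r → Fin (n + (κ + κ)) → ℕ) (hv : Function.Injective v) (hv0 : ∀ j, v j ≠ 0)
    (c : Fin r → k) (hc : ∀ j, c j ≠ 0) (hnd : NondegP v (fun j => algebraMap k ℂ (c j)))
    (V : Finset (Fin r)) (hV : Spans v V) (hG : GlobW v V) (hL : Facets v V) :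
    (∀ f : MvPolynomial (Fin n) k, f.totalDegree ≠ 0 →
      ∀ φ : MvPolynomial (Fin (n + (κ + κ))) k ≃ₐ[k] MvPolynomial (Fin (n + (κ + κ))) k,
      φ (stabK f κ) = spa v c → ∃ S : Finset (ℤ × ℤ), EquivariantMCMod f S) ∧
    ∀ γ : Fin κ → k, (∀ i, γ i ≠ 0) → ∀ (p : Fin κ → MvPolynomial (Fin n) k)
      (Φ : MvPolynomial (Fin (n + κ)) k), graphPoly γ p Φ = spa v c →
      ∀ f : MvPolynomial (Fin n) k, f = aeval (Fin.append X fun i => C (γ i)⁻¹ * p i) Φ →
      f.totalDegree ≠ 0 →
      ∃ S : Finset (ℤ × ℤ), (∀ p ∈ S, p.1 < 0) ∧ EquivariantMCMod f S := by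
  have H := Pool.Agent.K6.H7.UO.res hr v hv hv0 c hc hnd V hV hG hL
  refine ⟨fun f hf φ hφ => ?_, fun γ hγ p Φ hGp f hff hf => ?_⟩
  · obtain ⟨S, hS, hz⟩ := H.1 f hf φ hφ
    exact ⟨S, hS, hz⟩
  · obtain ⟨S, hS0, hS, hz⟩ := H.2 γ hγ p Φ hGp f hff hf
    exact ⟨S, hS0, hS, hz⟩

end Pool.Agent.Results.MP_b48657_ag.StablyNondegenerate
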