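import Pool.Agent.K6.H7.UE.Ind

set_option autoImplicit false

/-!
# The equivariant motivic monodromy conjecture for stably sparse polynomials

Let `f` be a polynomial in `x_1, …, x_n` over a field `k ⊂ ℂ` such that, for some `κ ≥ 0`,
`f(x) + y_1 z_1 + ⋯ + y_κ z_κ` becomes, by an automorphism of the polynomial ring `k[x, y, z]`, a
polynomial whose exponent vectors are affinely independent. We prove the conjecture of Denef and Loeser for
`f` in its original form: for the motivic zeta function over `X_s = {f = 0}` with the action of `μ̂`, and with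
roots of the Bernstein-Sato polynomial.

Main case: `f(x) = Φ(x, p_1(x), …, p_κ(x))` such that the exponents of all the monomials of
`G = Φ(x, z) + ∑_i y_i (c_i z_i - p_i(x))` are affinely independent. For example
`f = x ^ u ∏_{i ≤ κ} (x ^ (α_i) - λ_i x ^ (β_i)) ^ (e_i)` for linearly independent `α_i - β_i` and arbitrary
`λ_i ≠ 0`, `u`, `e_i ≥ 1`; suitable sums of such products, such as `(x_2 ^ 2 - x_1 ^ 3) ^ 2 - x_1 ^ 5 x_2`;
and `x ^ u p(x) ^ e` for every `p` with affinely independent exponents. These polynomials are in general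
degenerate with respect to their Newton polytopes in all coordinates, not reduced, and their singularities
are not isolated. `κ = 0` is the starting file `AffinelyIndependent`; iterated compositions are in the first
part of the theorem.

Method.
(a) The `μ̂`-equivariant classes of the jets of `g = f + y z` are computed from those of `f`:
`[X_N(g)] = [X_N(f)] 𝕃 ^ (N + 1) + (𝕃 - 1) 𝕃 ^ N ∑_{i ≤ N} [ord f ≥ i]`. The sets `{ord f ≥ i}` of jets carry
the action of `μ_N`, which depends on `N`. The key lemma: if a constructible set is stable under a diagonal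
action of `𝔾_m`, then its class in the equivariant Grothendieck ring, for the action of `μ̂` through
`μ_d ⊂ 𝔾_m`, does not depend on `d`.
(b) The equivariant Grothendieck rings over `{g = 0}` and over `{f = 0}` are compared by base change along
the section `y = z = 0`.
(c) With a second pair of variables the tails can be eliminated:
`𝕃 ^ 3 (1 - 𝕃⁻¹ T) Z_f(T) = (𝕃 ^ 2 + 𝕃) U_1(𝕃 T) - U_2(𝕃 ^ 2 T)` for the restrictions `U_1`, `U_2` to
`{f = 0}` of `(1 - 𝕃⁻¹ T) Z_{f + y z}(T)` and `(1 - 𝕃⁻¹ T) Z_{f + y z + y' z'}(T)`.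
(d) The theorem for polynomials with affinely independent exponents (`AffinelyIndependent`) is refined: the
denominator of `(1 - 𝕃⁻¹ T) Z_G(T)` contains only the factors `1 - 𝕃 ^ a T ^ b` such that `a / b` is a root of
every `c(s)` with `(s + 1) c(s)` in the Bernstein-Sato ideal of `G`.
-/

namespace Pool.Agent.Results.MP_b48657_ag.StablySparseEquivariant

open MvPolynomial Pool.Agent.W428.MOT
open Pool.Agent.W749.JI (fam)
open Pool.Agent.Y229.RE (ex)
open Pool.Agent.Y229.MS (stabK)

/-- The exponent vectors `v j` are affinely independent (over `ℚ`). -/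
def AffInd {r m : ℕ} (v : Fin r → Fin m → ℕ) : Prop :=
  AffineIndependent ℚ (fun j : Fin r => (fun i => (v j i : ℚ) : Fin m → ℚ))

/-- The equivariant motivic monodromy conjecture for `f` with the finite set `S` of pairs `(a, b)` of
integers: `b > 0` and `a / b` is a root of every polynomial `b` with `b(s) f ^ s = P(s) f ^ (s + 1)`, `P(s)` a
differential operator in the Weyl algebra, polynomial in `s` (`IsBFunction`), in particular of the
Bernstein-Sato polynomial of `f`; and the motivic zeta function `zetaE f = ∑_{m ≥ 1} [X_{m,1}] 𝕃 ^ (-m n) T ^ m`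
with coefficients in the localised Grothendieck ring of varieties over `X_s = {f = 0}` with good action of `μ̂`
is in the subring generated over this ring by `T` and the `1 / (1 - 𝕃 ^ a T ^ b)`, `(a, b) ∈ S`. -/
def EquivariantMC {k : Type} [Field k] [Algebra k ℂ] {n : ℕ} (f : MvPolynomial (Fin n) k)
    (S : Finset (ℤ × ℤ)) : Prop :=
  (∀ p ∈ S, 0 < p.2 ∧ ∀ b : Polynomial ℂ,
    Pool.Agent.H628R4.TP.IsBFunction (map (algebraMap k ℂ) f) b →
      b.eval ((p.1 : ℂ) / p.2) = 0) ∧
  InRat (LuMu f) S (zetaE f)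

/-- **The equivariant motivic monodromy conjecture (Bernstein-Sato form) for stably sparse
polynomials.**

`stabK f κ` is the polynomial `f(x) + ∑_{i ≤ κ} y_i z_i` in `n + 2 κ` variables.

First part. Let `f` be non-constant and let `φ` be an automorphism of the `k`-algebra `k[x, y, z]` such
that `φ(f + ∑ y_i z_i) = ∑_j c_j X ^ (v j)`, `c_j ≠ 0`, with at least two monomials, and the exponent
vectors `v j` affinely independent. Then `EquivariantMC f S` for a finite set `S` of pairs `(a, b)`
(`a < 0` by the theorem of Kashiwara).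

Second part (compositions). Let exponents `m_j` of monomials in `x_1, …, x_n, z_1, …, z_κ` be given,
`j = 1, …, r`, in groups `π j ∈ {0, …, κ}`, and `a_j ≠ 0`; let `Φ = fam π m a 0 = ∑_{π j = 0} a_j X ^ (m_j)`
and let `fam π m a i.succ = ∑_{π j = i} a_j X ^ (m_j)` be `c_i z_i - p_i(x)`, `c_i ≠ 0`, for `i = 1, …, κ`.
If the exponents `ex π m` of `G = Φ + ∑_i y_i (c_i z_i - p_i(x))` are affinely independent, then the
conclusion holds for `f(x) = Φ(x, p_1(x) / c_1, …, p_κ(x) / c_κ)`, non-constant, with `a < 0 < b` for all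
`(a, b) ∈ S`. -/
theorem result (k : Type) [Field k] [Algebra k ℂ] {n κ r : ℕ} (hr : 2 ≤ r) :
    (∀ f : MvPolynomial (Fin n) k, f.totalDegree ≠ 0 →
      ∀ v : Fin r → Fin (n + (κ + κ)) → ℕ, AffInd v →
      ∀ c : Fin r → k, (∀ j, c j ≠ 0) →
      ∀ φ : MvPolynomial (Fin (n + (κ + κ))) k ≃ₐ[k] MvPolynomial (Fin (n + (κ + κ))) k,
      φ (stabK f κ) = ∑ j, C (c j) * ∏ i, X i ^ v j i →
      ∃ S : Finset (ℤ × ℤ), EquivariantMC f S) ∧
    (∀ (π : Fin r → Fin (κ + 1)) (m : Fin r → Fin (n + κ) → ℕ), AffInd (ex π m) →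
      ∀ a : Fin r → k, (∀ j, a j ≠ 0) →
      ∀ c : Fin κ → k, (∀ i, c i ≠ 0) → ∀ p : Fin κ → MvPolynomial (Fin n) k,
      (∀ i : Fin κ, fam π m a i.succ = C (c i) * X (Fin.natAdd n i) -
        rename (Fin.castAdd κ) (p i)) →
      ∀ f : MvPolynomial (Fin n) k,
      f = aeval (Fin.append X fun i => C (c i)⁻¹ * p i) (fam π m a 0) → f.totalDegree ≠ 0 →
      ∃ S : Finset (ℤ × ℤ), (∀ p ∈ S, p.1 < 0) ∧ EquivariantMC f S) := by
  refine ⟨?_, ?_⟩
  · intro f hf v hv c hc φ hφ
    obtain ⟨S, hS, hz⟩ := Pool.Agent.K6.H7.UE.mainE hr f hf v hv c hc φ hφ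
    exact ⟨S, fun p hp => ⟨(hS p hp).1, (hS p hp).2.2⟩, hz⟩
  · intro π m hv a ha c hc p hl f hff hf
    obtain ⟨S, hS, hz⟩ := Pool.Agent.K6.H7.UE.compE hr π m hv a ha c hc p hl f hff hf
    exact ⟨S, fun p hp => (hS p hp).1, fun p hp => (hS p hp).2, hz⟩

end Pool.Agent.Results.MP_b48657_ag.StablySparseEquivariant
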